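import Mathlib

/-!
# A length-increasing multiplicative wqo containing no wqo `⇒_P^*` with `P` finite

For every finite alphabet with at least two letters we construct a length-increasing
multiplicative well-quasi-order `≤` on words such that for every finite production system `P`
whose rules `u → v` satisfy `u ≤ v`, the derivation relation `⇒_P^*` is not a well-quasi-order.

Fix a letter `b`. For a word `w` let `cnt w` be the number of `b`s in `w`, `pre w` the number of
letters before the first `b`, `suf w` the number of letters after the last `b` (both are `|w|` if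
there is no `b`). The order is
`u ≤ v` iff `min (cnt u) 2 = min (cnt v) 2`, `pre u ≤ pre v`, `suf u ≤ suf v`, `|u| ≤ |v|`.
-/

namespace Pool.Agent.Results.MP_577ba1_lc.NoFiniteSystem

variable {α : Type*}

/-- A quasi-order on the words over `α`: a reflexive and transitive relation. -/
def IsQuasiOrder (r : List α → List α → Prop) : Prop :=
  (∀ x, r x x) ∧ ∀ x y z, r x y → r y z → r x z

/-- A well-quasi-order on the words over `α`: a quasi-order such that every infinite sequence
`x₀, x₁, …` of words has indices `i < j` with `x_i ≤ x_j`. -/
def IsWqo (r : List α → List α → Prop) : Prop :=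
  IsQuasiOrder r ∧ ∀ x : ℕ → List α, ∃ i j, i < j ∧ r (x i) (x j)

/-- `≤` is multiplicative: `x ≤ y` implies `u x v ≤ u y v`. -/
def IsMultiplicative (r : List α → List α → Prop) : Prop :=
  ∀ x y, r x y → ∀ u v, r (u ++ x ++ v) (u ++ y ++ v)

/-- `≤` is length-increasing: `x ≤ y` implies `|x| ≤ |y|`. -/
def IsLengthIncreasing (r : List α → List α → Prop) : Prop :=
  ∀ x y, r x y → x.length ≤ y.length

/-- One derivation step `x ⇒_P y` of the finite production system `P`
(a pair `(u, v) ∈ P` is the rule `u → v`). -/
def Step (P : Finset (List α × List α)) (x y : List α) : Prop :=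
  ∃ p ∈ P, ∃ s t, x = s ++ p.1 ++ t ∧ y = s ++ p.2 ++ t

/-- The derivation relation `⇒_P^*`: the reflexive-transitive closure of `⇒_P`. -/
def Derives (P : Finset (List α × List α)) : List α → List α → Prop :=
  Relation.ReflTransGen (Step P)

section Construction

variable [DecidableEq α] (b : α)

/-- number of letters before the first `b` -/
def pre : List α → ℕ
  | [] => 0
  | x :: w => if x = b then 0 else pre w + 1

/-- number of letters after the last `b` -/
def suf (w : List α) : ℕ := pre b w.reverse

/-- the well-quasi-order -/
def ord (u v : List α) : Prop :=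
  min (u.count b) 2 = min (v.count b) 2 ∧ pre b u ≤ pre b v ∧ suf b u ≤ suf b v ∧
    u.length ≤ v.length

lemma pre_append_of_mem {s : List α} (h : b ∈ s) (w : List α) : pre b (s ++ w) = pre b s := by
  induction s with
  | nil => simp at h
  | cons x s ih =>
    by_cases hx : x = b
    · simp [pre, hx]
    · have : b ∈ s := by
        rcases List.mem_cons.1 h with h | h
        · exact absurd h.symm hx
        · exact h
      simp [pre, hx, ih this]

lemma pre_append_of_notMem {s : List α} (h : b ∉ s) (w : List α) :
    pre b (s ++ w) = s.length + pre b w := by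
  induction s with
  | nil => simp
  | cons x s ih =>
    have hx : x ≠ b := fun e => h (by simp [e])
    have hs : b ∉ s := fun e => h (by simp [e])
    simp [pre, hx, ih hs]
    omega

lemma pre_of_notMem {s : List α} (h : b ∉ s) : pre b s = s.length := by
  have := pre_append_of_notMem b h []
  simpa [pre] using this

lemma pre_le_length (s : List α) : pre b s ≤ s.length := by
  induction s with
  | nil => simp [pre]
  | cons x s ih =>
    by_cases hx : x = b
    · simp [pre, hx]
    · simp [pre, hx, ih]

/-- `pre` is monotone for substitution in a context -/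
lemma pre_context {u v : List α} (huv : (b ∈ u ↔ b ∈ v)) (hp : pre b u ≤ pre b v)
    (hl : u.length ≤ v.length) (s t : List α) :
    pre b (s ++ u ++ t) ≤ pre b (s ++ v ++ t) := by
  have key : pre b (u ++ t) ≤ pre b (v ++ t) := by
    by_cases hu : b ∈ u
    · rw [pre_append_of_mem b hu, pre_append_of_mem b (huv.1 hu)]
      exact hp
    · rw [pre_append_of_notMem b hu, pre_append_of_notMem b (fun h => hu (huv.2 h))]
      omega
  rw [List.append_assoc, List.append_assoc]
  by_cases hs : b ∈ s
  · rw [pre_append_of_mem b hs, pre_append_of_mem b hs]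
  · rw [pre_append_of_notMem b hs, pre_append_of_notMem b hs]
    omega

lemma ord_mem_iff {u v : List α} (h : ord b u v) : b ∈ u ↔ b ∈ v := by
  have h1 := h.1
  rw [← List.count_pos_iff, ← List.count_pos_iff]
  omega

lemma ord_isQuasiOrder : IsQuasiOrder (ord b) := by
  refine ⟨fun x => ⟨rfl, le_rfl, le_rfl, le_rfl⟩, ?_⟩
  rintro x y z ⟨h1, h2, h3, h4⟩ ⟨k1, k2, k3, k4⟩
  exact ⟨h1.trans k1, h2.trans k2, h3.trans k3, h4.trans k4⟩

lemma ord_isWqo : IsWqo (ord b) := by
  refine ⟨ord_isQuasiOrder b, fun x => ?_⟩
  -- Dickson's lemma
  have hfin : WellQuasiOrdered (fun a c : Fin 3 => a = c) := Finite.wellQuasiOrdered _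
  have hnat : WellQuasiOrdered (fun a c : ℕ => a ≤ c) := wellQuasiOrdered_le
  have h1 := (hfin.prod (hnat.prod (hnat.prod hnat)))
  obtain ⟨i, j, hij, h⟩ := h1 (fun n => (⟨min ((x n).count b) 2, by omega⟩, pre b (x n),
    suf b (x n), (x n).length))
  refine ⟨i, j, hij, ?_⟩
  simp only [Fin.mk.injEq] at h
  exact ⟨h.1, h.2.1, h.2.2.1, h.2.2.2⟩

lemma ord_isMultiplicative : IsMultiplicative (ord b) := by
  intro u v h s t
  have hm := ord_mem_iff b h
  obtain ⟨h1, h2, h3, h4⟩ := h
  refine ⟨?_, pre_context b hm h2 h4 s t, ?_, ?_⟩
  · simp only [List.count_append]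
    omega
  · unfold suf at *
    have := pre_context b (u := u.reverse) (v := v.reverse) (by simpa using hm) h3
      (by simpa using h4) t.reverse s.reverse
    simpa [List.append_assoc] using this
  · simp only [List.length_append]
    omega

lemma ord_isLengthIncreasing : IsLengthIncreasing (ord b) := fun _ _ h => h.2.2.2

/-- scanning automaton: `ok c w` says that, if `c` letters have been read since the last `b`
(before `w`), every maximal `b`-free block of `w` ended by a `b` (and begun after the last `b`)
has length at least `N`. -/
def ok (N : ℕ) : ℕ → List α → Prop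
  | _, [] => True
  | c, x :: w => if x = b then N ≤ c ∧ ok N 0 w else ok N (c + 1) w

lemma ok_mono {N : ℕ} {w : List α} : ∀ {c c' : ℕ}, c ≤ c' → ok b N c w → ok b N c' w := by
  induction w with
  | nil => intros; trivial
  | cons x w ih =>
    intro c c' hc h
    by_cases hx : x = b
    · simp only [ok, hx, if_true] at h ⊢
      exact ⟨h.1.trans hc, h.2⟩
    · simp only [ok, hx, if_false] at h ⊢
      exact ih (by omega) h

lemma ok_append_notMem {N : ℕ} {u : List α} (hu : b ∉ u) (w : List α) :
    ∀ c, (ok b N c (u ++ w) ↔ ok b N (c + u.length) w) := by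
  induction u with
  | nil => intro c; simp
  | cons x u ih =>
    intro c
    have hx : x ≠ b := fun e => hu (by simp [e])
    have hs : b ∉ u := fun e => hu (by simp [e])
    simp only [List.cons_append, ok, hx, if_false, ih hs, List.length_cons]
    rw [show c + 1 + u.length = c + (u.length + 1) by omega]

lemma ok_context {N : ℕ} {w w' : List α} (h : ∀ c, ok b N c w → ok b N c w') (s : List α) :
    ∀ c, ok b N c (s ++ w) → ok b N c (s ++ w') := by
  induction s with
  | nil => simpa using h
  | cons x s ih =>
    intro c hc
    by_cases hx : x = b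
    · simp only [List.cons_append, ok, hx, if_true] at hc ⊢
      exact ⟨hc.1, ih _ hc.2⟩
    · simp only [List.cons_append, ok, hx, if_false] at hc ⊢
      exact ih _ hc

/-- a word with exactly one `b` -/
lemma exists_split {u : List α} (h : b ∈ u) : ∃ x y, u = x ++ b :: y ∧ b ∉ x := by
  induction u with
  | nil => simp at h
  | cons a u ih =>
    by_cases ha : a = b
    · exact ⟨[], u, by simp [ha], by simp⟩
    · have : b ∈ u := by
        rcases List.mem_cons.1 h with h | h
        · exact absurd h.symm ha
        · exact h
      obtain ⟨x, y, rfl, hx⟩ := ih this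
      exact ⟨a :: x, y, by simp, by simp [hx, Ne.symm ha]⟩

lemma pre_split {x : List α} (hx : b ∉ x) (y : List α) : pre b (x ++ b :: y) = x.length := by
  rw [pre_append_of_notMem b hx]; simp [pre]

lemma suf_split {y : List α} (hy : b ∉ y) (x : List α) : suf b (x ++ b :: y) = y.length := by
  unfold suf
  have : (x ++ b :: y).reverse = y.reverse ++ b :: x.reverse := by simp
  rw [this, pre_split b (by simpa using hy)]
  simp

lemma ok_split {N : ℕ} {x y : List α} (hx : b ∉ x) (t : List α) (c : ℕ) :
    ok b N c ((x ++ b :: y) ++ t) ↔ N ≤ c + x.length ∧ ok b N 0 (y ++ t) := by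
  rw [List.append_assoc, ok_append_notMem b hx]
  simp [ok]

/-- a factor of length at most `N` in a good word has at most one `b` -/
lemma count_le_one {N : ℕ} {u t : List α} {c : ℕ} (hu : u.length ≤ N)
    (h : ok b N c (u ++ t)) : u.count b ≤ 1 := by
  by_contra hcon
  push Not at hcon
  have hmem : b ∈ u := List.count_pos_iff.1 (by omega)
  obtain ⟨x, y, rfl, hx⟩ := exists_split b hmem
  rw [ok_split b hx] at h
  have hy : b ∈ y := by
    have : (x ++ b :: y).count b = y.count b + 1 := by
      simp [List.count_append, List.count_eq_zero_of_not_mem hx]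
    exact List.count_pos_iff.1 (by omega)
  obtain ⟨z, y', rfl, hz⟩ := exists_split b hy
  have h2 := h.2
  rw [ok_split b hz] at h2
  have := h2.1
  simp only [List.length_append, List.length_cons] at hu
  omega

/-- the rules keep the invariant -/
lemma ok_rule {N : ℕ} {u v : List α} (h : ord b u v) (hc : u.count b ≤ 1) (t : List α) (c : ℕ)
    (hok : ok b N c (u ++ t)) : ok b N c (v ++ t) := by
  have hcv : v.count b = u.count b := by have := h.1; omega
  by_cases hmem : b ∈ u
  · have hmem' := (ord_mem_iff b h).1 hmem
    obtain ⟨x, y, rfl, hx⟩ := exists_split b hmem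
    obtain ⟨x', y', rfl, hx'⟩ := exists_split b hmem'
    have e1 : (x ++ b :: y).count b = y.count b + 1 := by
      simp [List.count_append, List.count_eq_zero_of_not_mem hx]
    have e2 : (x' ++ b :: y').count b = y'.count b + 1 := by
      simp [List.count_append, List.count_eq_zero_of_not_mem hx']
    have hy : b ∉ y := fun hh => by
      have := List.count_pos_iff.2 hh; omega
    have hy' : b ∉ y' := fun hh => by
      have := List.count_pos_iff.2 hh; omega
    have hpre := h.2.1
    have hsuf := h.2.2.1
    rw [pre_split b hx, pre_split b hx'] at hpre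
    rw [suf_split b hy, suf_split b hy'] at hsuf
    rw [ok_split b hx, ok_append_notMem b hy] at hok
    rw [ok_split b hx', ok_append_notMem b hy']
    exact ⟨hok.1.trans (by omega), ok_mono b (by omega) hok.2⟩
  · have hmem' : b ∉ v := fun hh => hmem ((ord_mem_iff b h).2 hh)
    rw [ok_append_notMem b hmem] at hok
    rw [ok_append_notMem b hmem']
    exact ok_mono b (by have := h.2.2.2; omega) hok

/-- the words `(b a^N)^k b` -/
def word (a : α) (N : ℕ) : ℕ → List α
  | 0 => [b]
  | k + 1 => b :: (List.replicate N a ++ word a N k)

lemma ok_word {a : α} (hab : a ≠ b) (N k : ℕ) : ∀ c, N ≤ c → ok b N c (word b a N k) := by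
  induction k with
  | zero => intro c hc; simp [word, ok, hc]
  | succ k ih =>
    intro c hc
    have hnm : b ∉ List.replicate N a := by
      intro hh
      exact hab (List.eq_of_mem_replicate hh).symm
    simp only [word, ok, if_true]
    refine ⟨hc, ?_⟩
    rw [ok_append_notMem b hnm]
    exact ih _ (by simp)

lemma count_word {a : α} (hab : a ≠ b) (N k : ℕ) : (word b a N k).count b = k + 1 := by
  induction k with
  | zero => simp [word]
  | succ k ih =>
    have hnm : b ∉ List.replicate N a := by
      intro hh
      exact hab (List.eq_of_mem_replicate hh).symm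
    simp [word, List.count_append, ih, List.count_eq_zero_of_not_mem hnm]

lemma ok_suffix {N : ℕ} (s w : List α) : ∀ c, ok b N c (s ++ w) → ∃ c', ok b N c' w := by
  induction s with
  | nil => intro c h; exact ⟨c, h⟩
  | cons x s ih =>
    intro c hc
    by_cases hx : x = b
    · simp only [List.cons_append, ok, hx, if_true] at hc
      exact ih _ hc.2
    · simp only [List.cons_append, ok, hx, if_false] at hc
      exact ih _ hc

lemma not_isWqo_derives {a : α} (hab : a ≠ b) (P : Finset (List α × List α))
    (hP : ∀ p ∈ P, ord b p.1 p.2) : ¬ IsWqo (Derives P) := by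
  rintro ⟨-, hwqo⟩
  -- a bound for the lengths of the left-hand sides
  set N : ℕ := P.sup (fun p => p.1.length) with hN
  have hlen : ∀ p ∈ P, p.1.length ≤ N := fun p hp =>
    Finset.le_sup (f := fun p : List α × List α => p.1.length) hp
  -- the invariant
  have hstep : ∀ x y, Step P x y → ok b N N x → ok b N N y ∧ y.count b = x.count b := by
    rintro x y ⟨p, hp, s, t, rfl, rfl⟩ hok
    rw [List.append_assoc] at hok
    have hc1 : p.1.count b ≤ 1 := by
      obtain ⟨c, hc⟩ := ok_suffix b s (p.1 ++ t) N hok
      exact count_le_one b (hlen p hp) hc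
    refine ⟨?_, ?_⟩
    · rw [List.append_assoc]
      exact ok_context b (fun c h => ok_rule b (hP p hp) hc1 t c h) s N hok
    · have := (hP p hp).1
      simp only [List.count_append]
      omega
  have hder : ∀ x y, Derives P x y → ok b N N x → ok b N N y ∧ y.count b = x.count b := by
    intro x y h hx
    induction h with
    | refl => exact ⟨hx, rfl⟩
    | tail _ h2 ih =>
      have := hstep _ _ h2 ih.1
      exact ⟨this.1, this.2.trans ih.2⟩
  obtain ⟨i, j, hij, h⟩ := hwqo (fun k => word b a N k)
  have := (hder _ _ h (ok_word b hab N i N le_rfl)).2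
  rw [count_word b hab, count_word b hab] at this
  omega

end Construction

/-- **Negative answer to Q1.** For every finite alphabet `α` with at least two letters there is a
length-increasing multiplicative well-quasi-order `r` on the words over `α` such that for every
finite production system `P` whose rules `u → v` have `u, v` nonempty and `r u v`, the derivation
relation `⇒_P^*` is not a well-quasi-order. -/
theorem result (α : Type*) [Finite α] [Nontrivial α] :
    ∃ r : List α → List α → Prop,
      IsWqo r ∧ IsMultiplicative r ∧ IsLengthIncreasing r ∧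
        ∀ P : Finset (List α × List α),
          (∀ p ∈ P, p.1 ≠ [] ∧ p.2 ≠ [] ∧ r p.1 p.2) → ¬ IsWqo (Derives P) := by
  classical
  obtain ⟨a, b, hab⟩ := exists_pair_ne α
  exact ⟨ord b, ord_isWqo b, ord_isMultiplicative b, ord_isLengthIncreasing b,
    fun P hP => not_isWqo_derives b hab P (fun p hp => (hP p hp).2.2)⟩

end Pool.Agent.Results.MP_577ba1_lc.NoFiniteSystem
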